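import Mathlib
import Pool.Agent.Q69.BlockBound

/-!
# MP_307271_an: transitive systems of finite entropy with oscillating growth rates
-/

set_option autoImplicit false
open Filter Topology Set

namespace Pool.Agent.Results.MP_307271_an.Oscillate

section defs

variable {X : Type} [MetricSpace X]

/-- `D_T(x,y) = max_{0 ≤ t ≤ T-1} D(F^t x, F^t y)` -/
noncomputable def DT (F : X → X) (T : ℕ) (x y : X) : ℝ :=
  ⨆ t : Fin T, dist (F^[(t : ℕ)] x) (F^[(t : ℕ)] y)

/-- the largest size of a finite set `S` with `D_T(x,y) ≥ ε` for all distinct `x, y ∈ S` -/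
noncomputable def sep (F : X → X) (ε : ℝ) (T : ℕ) : ℕ :=
  sSup {n | ∃ S : Finset X, (∀ x ∈ S, ∀ y ∈ S, x ≠ y → ε ≤ DT F T x y) ∧ S.card = n}

/-- the smallest size of a finite set `S` such that every `x` has some `s ∈ S` with
`D_T(s,x) < ε` -/
noncomputable def span (F : X → X) (ε : ℝ) (T : ℕ) : ℕ :=
  sInf {n | ∃ S : Finset X, (∀ x : X, ∃ s ∈ S, DT F T s x < ε) ∧ S.card = n}

/-- the lower growth rate of `sep` -/
noncomputable def sLow (F : X → X) (ε : ℝ) : EReal :=
  liminf (fun T : ℕ => ((Real.log (sep F ε T) / T : ℝ) : EReal)) atTop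

/-- the upper growth rate of `sep` -/
noncomputable def sUp (F : X → X) (ε : ℝ) : EReal :=
  limsup (fun T : ℕ => ((Real.log (sep F ε T) / T : ℝ) : EReal)) atTop

/-- the lower growth rate of `span` -/
noncomputable def pLow (F : X → X) (ε : ℝ) : EReal :=
  liminf (fun T : ℕ => ((Real.log (span F ε T) / T : ℝ) : EReal)) atTop

/-- the upper growth rate of `span` -/
noncomputable def pUp (F : X → X) (ε : ℝ) : EReal :=
  limsup (fun T : ℕ => ((Real.log (span F ε T) / T : ℝ) : EReal)) atTop

/-- the topological entropy `lim_{ε → 0+} sUp ε`, which is the supremum over `ε > 0` -/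
noncomputable def entropy (F : X → X) : EReal := ⨆ ε : {ε : ℝ // 0 < ε}, sUp F ε.1

/-- topological transitivity: some point has a dense forward orbit -/
def Transitive (F : X → X) : Prop := ∃ x, Dense (range fun n : ℕ => F^[n] x)

end defs

open Q69Block Q69BlockForm Q69BlockCount Q69BlockSys Q69BlockBound

section general

variable {X : Type} [MetricSpace X] {F : X → X}

lemma le_DT {T : ℕ} (hT : 0 < T) {x y : X} {c : ℝ} :
    c ≤ DT F T x y ↔ ∃ t < T, c ≤ dist (F^[t] x) (F^[t] y) := by
  haveI : Nonempty (Fin T) := ⟨⟨0, hT⟩⟩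
  unfold DT
  constructor
  · intro h
    obtain ⟨t, ht⟩ := exists_eq_ciSup_of_finite
      (f := fun t : Fin T => dist (F^[(t : ℕ)] x) (F^[(t : ℕ)] y))
    exact ⟨t, t.2, by rw [← ht] at h; exact h⟩
  · rintro ⟨t, ht, h⟩
    exact h.trans (le_ciSup (f := fun t : Fin T => dist (F^[(t : ℕ)] x) (F^[(t : ℕ)] y))
      (Finite.bddAbove_range _) ⟨t, ht⟩)

lemma DT_lt {T : ℕ} (hT : 0 < T) {x y : X} {c : ℝ} :
    DT F T x y < c ↔ ∀ t < T, dist (F^[t] x) (F^[t] y) < c := by
  rw [← not_le, le_DT hT]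
  push Not
  rfl

lemma sep_le {ε : ℝ} {T : ℕ} (hT : 0 < T) {N : ℕ} (h : ∀ S : Finset X,
    (∀ x ∈ S, ∀ y ∈ S, x ≠ y → ∃ t < T, ε ≤ dist (F^[t] x) (F^[t] y)) → S.card ≤ N) :
    sep F ε T ≤ N := by
  apply csSup_le
  · exact ⟨0, ∅, by simp, rfl⟩
  · rintro _ ⟨S, hS, rfl⟩
    exact h S fun x hx y hy hne => (le_DT hT).1 (hS x hx y hy hne)

lemma le_sep {ε : ℝ} {T : ℕ} (hT : 0 < T) {N : ℕ} (h : ∀ S : Finset X,
    (∀ x ∈ S, ∀ y ∈ S, x ≠ y → ∃ t < T, ε ≤ dist (F^[t] x) (F^[t] y)) → S.card ≤ N)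
    (S : Finset X) (hS : ∀ x ∈ S, ∀ y ∈ S, x ≠ y → ∃ t < T, ε ≤ dist (F^[t] x) (F^[t] y)) :
    S.card ≤ sep F ε T := by
  apply le_csSup
  · refine ⟨N, ?_⟩
    rintro _ ⟨S', hS', rfl⟩
    exact h S' fun x hx y hy hne => (le_DT hT).1 (hS' x hx y hy hne)
  · exact ⟨S, fun x hx y hy hne => (le_DT hT).2 (hS x hx y hy hne), rfl⟩

lemma span_le {ε : ℝ} {T : ℕ} (hT : 0 < T) (S : Finset X)
    (hS : ∀ x, ∃ s ∈ S, ∀ t < T, dist (F^[t] s) (F^[t] x) < ε) : span F ε T ≤ S.card := by
  apply Nat.sInf_le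
  refine ⟨S, fun x => ?_, rfl⟩
  obtain ⟨s, hs, h⟩ := hS x
  exact ⟨s, hs, (DT_lt hT).2 h⟩

lemma exists_span {ε : ℝ} {T : ℕ} (hT : 0 < T)
    (h : ∃ S : Finset X, ∀ x, ∃ s ∈ S, ∀ t < T, dist (F^[t] s) (F^[t] x) < ε) :
    ∃ S : Finset X, (∀ x, ∃ s ∈ S, ∀ t < T, dist (F^[t] s) (F^[t] x) < ε) ∧
      S.card = span F ε T := by
  have hne : {n | ∃ S : Finset X, (∀ x : X, ∃ s ∈ S, DT F T s x < ε) ∧ S.card = n}.Nonempty := by
    obtain ⟨S, hS⟩ := h
    refine ⟨S.card, S, fun x => ?_, rfl⟩
    obtain ⟨s, hs, h⟩ := hS x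
    exact ⟨s, hs, (DT_lt hT).2 h⟩
  obtain ⟨S, hS, hc⟩ := Nat.sInf_mem hne
  refine ⟨S, fun x => ?_, hc⟩
  obtain ⟨s, hs, h⟩ := hS x
  exact ⟨s, hs, (DT_lt hT).1 h⟩

end general

/-! ### Limits -/

lemma log_small {δ : ℝ} (hδ : 0 < δ) (K a : ℕ) :
    ∀ᶠ T : ℕ in atTop, Real.log K + 4 * Real.log (T + a) ≤ δ * T := by
  have h := Real.isLittleO_log_id_atTop.def (show 0 < δ / 16 by positivity)
  have ht : Tendsto (fun T : ℕ => (T : ℝ) + a) atTop atTop :=
    tendsto_atTop_add_const_right _ _ tendsto_natCast_atTop_atTop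
  obtain ⟨M, hM⟩ := exists_nat_ge (Real.log K / (δ / 2))
  filter_upwards [ht.eventually h, eventually_ge_atTop M, eventually_ge_atTop a] with T h1 h2 h3
  have h4 : (a : ℝ) ≤ T := by exact_mod_cast h3
  have h5 : (M : ℝ) ≤ T := by exact_mod_cast h2
  simp only [id, Real.norm_eq_abs] at h1
  rw [abs_of_nonneg (show (0 : ℝ) ≤ T + a by positivity)] at h1
  have h6 := (le_abs_self _).trans h1
  rw [div_le_iff₀ (by positivity)] at hM
  nlinarith

/-- a bound for the rate -/
lemma rate_le {N K T a M : ℕ} {c δ : ℝ} (hT : 0 < T) (hK : 0 < K) (hM : 0 < M)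
    (hN : N ≤ K * (T + a) ^ 4 * M) (ha : 0 < a)
    (hc : Real.log M ≤ c * T) (hδ : Real.log K + 4 * Real.log (T + a) ≤ δ * T) (h0 : 0 ≤ c + δ) :
    Real.log N / T ≤ c + δ := by
  have hT' : (0 : ℝ) < T := by exact_mod_cast hT
  rw [div_le_iff₀ hT']
  rcases Nat.eq_zero_or_pos N with h | h
  · rw [h, Nat.cast_zero, Real.log_zero]; positivity
  · have h1 : (N : ℝ) ≤ K * ((T : ℝ) + a) ^ 4 * M := by exact_mod_cast hN
    have hK' : (0 : ℝ) < K := by exact_mod_cast hK
    have hM' : (0 : ℝ) < M := by exact_mod_cast hM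
    have h2 := Real.log_le_log (by exact_mod_cast h) h1
    rw [Real.log_mul (by positivity) (by positivity), Real.log_mul (by positivity) (by positivity),
      Real.log_pow] at h2
    push_cast at h2
    linarith

/-! ### Facts valid for both systems -/

section sys

variable {V : Type} [Fintype V] [Nonempty V] {P : Par V}

lemma transitive_F : Transitive (F P) := ⟨_, dense_orbit P⟩

lemma sep_bound (hP : Std P) {δ : ℝ} (hδ : 0 < δ) : ∃ j : ℕ, ∀ T, 0 < T →
    ∀ S : Finset (Sp P), (∀ x ∈ S, ∀ y ∈ S, x ≠ y →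
      ∃ t < T, δ ≤ dist ((F P)^[t] x) ((F P)^[t] y)) →
    S.card ≤ ((w P.u 0).len + 12) * (T + (2 * j + 1)) ^ 4 * Fintype.card V ^ (T + 2 * j) := by
  obtain ⟨j, hj⟩ := small_pow hδ
  exact ⟨j, fun T _ S hS => sep_upper hP hj hS⟩

lemma sep_rate_le (hP : Std P) {δ η : ℝ} (hδ : 0 < δ) (hη : 0 < η) :
    ∀ᶠ T : ℕ in atTop, Real.log (sep (F P) δ T) / T ≤ Real.log (Fintype.card V) + η := by
  obtain ⟨j, hj⟩ := sep_bound hP hδ
  have hV : 0 < Fintype.card V := Fintype.card_pos
  have hV1 : (1 : ℝ) ≤ Fintype.card V := by exact_mod_cast hV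
  have hlog : 0 ≤ Real.log (Fintype.card V) := Real.log_nonneg hV1
  have hKpos : 0 < ((w P.u 0).len + 12) * Fintype.card V ^ (2 * j) := by positivity
  filter_upwards [log_small hη (((w P.u 0).len + 12) * Fintype.card V ^ (2 * j)) (2 * j + 1),
    eventually_gt_atTop 0] with T h1 h2
  have h3 : sep (F P) δ T ≤ (((w P.u 0).len + 12) * Fintype.card V ^ (2 * j)) *
      (T + (2 * j + 1)) ^ 4 * Fintype.card V ^ T := by
    refine (sep_le h2 (hj T h2)).trans (le_of_eq ?_)
    rw [pow_add]; ring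
  refine rate_le h2 hKpos (by positivity) h3 (by omega) ?_ h1 (by positivity)
  push_cast
  rw [Real.log_pow, mul_comm]

lemma entropy_lt (hP : Std P) : entropy (F P) < ⊤ := by
  refine lt_of_le_of_lt (iSup_le fun ε => ?_)
    (EReal.coe_lt_top (Real.log (Fintype.card V) + 1))
  apply limsup_le_of_le
  · isBoundedDefault
  · filter_upwards [sep_rate_le hP ε.2 one_pos] with T hT
    exact_mod_cast hT

lemma mm_tendsto : Tendsto (fun k => mm (k + 1)) atTop atTop := by
  refine tendsto_atTop_mono (fun k => ?_) tendsto_id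
  simp only [id]
  unfold mm
  have : 2 * (k + 1) + 2 < 64 ^ (2 * (k + 1) + 2) := Nat.lt_pow_self (by norm_num)
  omega

lemma wk_tendsto : Tendsto wk atTop atTop := by
  refine tendsto_atTop_mono (fun k => ?_) tendsto_id
  simp only [id]
  unfold wk mm
  have : 2 * k + 2 < 64 ^ (2 * k + 2) := Nat.lt_pow_self (by norm_num)
  omega

lemma mm_nk (k : ℕ) : mm (k + 1) = 64 * nk k := by
  unfold mm nk
  rw [show 2 * (k + 1) + 2 = (2 * k + 3) + 1 by ring, pow_succ]; ring

lemma wk_nk (k : ℕ) : 64 * wk k = 129 * nk k := by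
  unfold wk nk mm
  rw [show 2 * k + 3 = (2 * k + 2) + 1 by ring, pow_succ]; ring

lemma wk_pos (k : ℕ) : 0 < wk k := by unfold wk; have := nk_pos k; omega

/-- the span rate is low at the scales `mm (k + 1)` -/
lemma span_freq_low (hP : Std P) {η : ℝ} (hη : 0 < η) : ∃ᶠ T : ℕ in atTop,
    Real.log (span (F P) 2 T) / T ≤ Real.log (Fintype.card (A V)) / 32 + η := by
  refine mm_tendsto.frequently (Eventually.frequently ?_)
  filter_upwards [mm_tendsto.eventually (log_small hη ((w P.u 0).len + 12) 1)] with k hk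
  have hT : 0 < mm (k + 1) := mm_pos _
  obtain ⟨S, hS1, hS2⟩ := span_upper hP k
  have h1 := (span_le hT S hS1).trans hS2
  have hA1 : (1 : ℝ) ≤ Fintype.card (A V) := by exact_mod_cast Fintype.card_pos
  have hlog : 0 ≤ Real.log (Fintype.card (A V)) := Real.log_nonneg hA1
  refine rate_le hT (by omega) (pow_pos Fintype.card_pos _) h1 one_pos ?_ hk (by positivity)
  push_cast
  rw [Real.log_pow, mm_nk]
  push_cast
  apply le_of_eq
  ring

/-- the span rate is high at the scales `wk k` -/
lemma span_freq_high (hP : Std P) {d₀ d₁ : ℕ} (hd : 0 < d₀ * d₁)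
    (hd₀ : ∀ v : V, Set.ncard {v' | v = v' ∨ P.r false v v'} ≤ d₀)
    (hd₁ : ∀ v : V, Set.ncard {v' | v = v' ∨ P.r true v v'} ≤ d₁) : ∃ᶠ T : ℕ in atTop,
    64 / 129 * (2 * Real.log (Fintype.card V) - Real.log (d₀ * d₁ : ℕ)) ≤
      Real.log (span (F P) 2 T) / T := by
  refine wk_tendsto.frequently (Frequently.of_forall fun k => ?_)
  have hT := wk_pos k
  have hex : ∃ S : Finset (Sp P), ∀ x, ∃ s ∈ S, ∀ t < wk k,
      dist ((F P)^[t] s) ((F P)^[t] x) < 2 := by
    -- use a spanning set for a longer time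
    have hle : wk k ≤ mm (k + 1) := by
      have := mm_nk k
      have := wk_nk k
      omega
    obtain ⟨S, hS1, -⟩ := span_upper hP k
    refine ⟨S, fun x => ?_⟩
    obtain ⟨s, hs, h⟩ := hS1 x
    exact ⟨s, hs, fun t ht => h t (by omega)⟩
  obtain ⟨S, hS, hcard⟩ := exists_span hT hex
  have h1 := span_lower hP hd₀ hd₁ hS
  rw [hcard] at h1
  have hV : (0 : ℝ) < Fintype.card V := by exact_mod_cast Fintype.card_pos
  have hsp : 0 < span (F P) 2 (wk k) := by
    rcases Nat.eq_zero_or_pos (span (F P) 2 (wk k)) with h | h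
    · rw [h, mul_zero] at h1
      have : 0 < Fintype.card V ^ (2 * nk k) := pow_pos Fintype.card_pos _
      omega
    · exact h
  have hsp' : (0 : ℝ) < span (F P) 2 (wk k) := by exact_mod_cast hsp
  have hd' : (0 : ℝ) < ((d₀ * d₁ : ℕ) : ℝ) := by exact_mod_cast hd
  have h2 : ((Fintype.card V : ℝ)) ^ (2 * nk k) ≤
      ((d₀ * d₁ : ℕ) : ℝ) ^ nk k * span (F P) 2 (wk k) := by exact_mod_cast h1
  have h3 := Real.log_le_log (by positivity) h2
  rw [Real.log_mul (by positivity) (by positivity), Real.log_pow, Real.log_pow] at h3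
  have hT' : (0 : ℝ) < wk k := by exact_mod_cast hT
  rw [le_div_iff₀ hT']
  have h4 : (64 : ℝ) * wk k = 129 * nk k := by exact_mod_cast wk_nk k
  push_cast at h3 ⊢
  have h5 : (wk k : ℝ) = 129 / 64 * nk k := by linarith
  rw [h5]
  linarith

lemma p_lt (hP : Std P) {d₀ d₁ : ℕ} (hd : 0 < d₀ * d₁)
    (hd₀ : ∀ v : V, Set.ncard {v' | v = v' ∨ P.r false v v'} ≤ d₀)
    (hd₁ : ∀ v : V, Set.ncard {v' | v = v' ∨ P.r true v v'} ≤ d₁)
    (h : Real.log (Fintype.card (A V)) / 32 <
      64 / 129 * (2 * Real.log (Fintype.card V) - Real.log (d₀ * d₁ : ℕ))) :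
    pLow (F P) 2 < pUp (F P) 2 := by
  set a := Real.log (Fintype.card (A V)) / 32 with ha
  set b := 64 / 129 * (2 * Real.log (Fintype.card V) - Real.log (d₀ * d₁ : ℕ)) with hb
  have h1 : pLow (F P) 2 ≤ ((a + (b - a) / 2 : ℝ) : EReal) := by
    apply liminf_le_of_frequently_le'
    exact (span_freq_low hP (show 0 < (b - a) / 2 by linarith)).mono fun T hT => by
      exact_mod_cast hT
  have h2 : ((b : ℝ) : EReal) ≤ pUp (F P) 2 := by
    apply le_limsup_of_frequently_le'
    exact (span_freq_high hP hd hd₀ hd₁).mono fun T hT => by exact_mod_cast hT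
  refine lt_of_le_of_lt h1 (lt_of_lt_of_le ?_ h2)
  exact_mod_cast (show a + (b - a) / 2 < b by linarith)

end sys

/-! ### The system for Q2: two letters of each kind, no close letters -/

section Q2

variable {P : Par Bool}

lemma sep_low2 (hP : Std P) (hr : ∀ b v v', ¬ P.r b v v') {δ : ℝ} (hδ : 0 < δ) (hδ2 : δ ≤ 2)
    {T : ℕ} (hT : 0 < T) : 2 ^ T ≤ sep (F P) δ T := by
  classical
  let pt : (Fin T → Bool) → Sp P := fun v =>
    mk (pureB true T hT (ex v)).f (form_mem hP (Or.inl ⟨true, T, hT, ex v, rfl⟩))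
  have hpt : ∀ (v : Fin T → Bool) (i : Fin T), (pt v).v (i : ℕ) = some (true, some (v i)) := by
    intro v i
    change (if _ then _ else _) = _
    have := i.2
    rw [if_pos (by omega)]
    congr 3
    exact ex_eq v i
  have hfar : ∀ v v' : Fin T → Bool, v ≠ v' →
      ∃ t < T, 2 ≤ dist ((F P)^[t] (pt v)) ((F P)^[t] (pt v')) := by
    intro v v' h
    obtain ⟨i, hi⟩ := Function.ne_iff.1 h
    refine ⟨i, i.2, (two_le_iter _ _ _).2 ?_⟩
    rw [hpt, hpt]
    refine ⟨fun he => hi ?_, fun hc => hr _ _ _ hc.2⟩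
    simpa using he
  have hinj : Function.Injective pt := by
    intro v v' h
    by_contra hne
    obtain ⟨t, -, ht⟩ := hfar v v' hne
    rw [h, dist_self] at ht
    norm_num at ht
  have hcard : (Finset.univ.image pt).card = 2 ^ T := by
    rw [Finset.card_image_of_injective _ hinj, Finset.card_univ, Fintype.card_fun,
      Fintype.card_bool, Fintype.card_fin]
  rw [← hcard]
  obtain ⟨j, hj⟩ := sep_bound hP hδ
  refine le_sep hT (hj T hT) _ ?_
  intro x hx y hy hne
  obtain ⟨v, -, rfl⟩ := Finset.mem_image.1 hx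
  obtain ⟨v', -, rfl⟩ := Finset.mem_image.1 hy
  obtain ⟨t, ht, h⟩ := hfar v v' fun h => hne (by rw [h])
  exact ⟨t, ht, hδ2.trans h⟩

lemma sep_tendsto2 (hP : Std P) (hr : ∀ b v v', ¬ P.r b v v') {δ : ℝ} (hδ : 0 < δ) :
    ∃ c : ℝ, Tendsto (fun T : ℕ => Real.log (sep (F P) δ T) / T) atTop (𝓝 c) := by
  by_cases hδ2 : δ ≤ 2
  · refine ⟨Real.log 2, tendsto_order.2 ⟨fun a ha => ?_, fun a ha => ?_⟩⟩
    · filter_upwards [eventually_gt_atTop 0] with T hT
      refine lt_of_lt_of_le ha ?_
      have hT' : (0 : ℝ) < T := by exact_mod_cast hT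
      rw [le_div_iff₀ hT', mul_comm, ← Real.log_pow]
      apply Real.log_le_log (by positivity)
      exact_mod_cast sep_low2 hP hr hδ hδ2 hT
    · filter_upwards [sep_rate_le hP hδ (show 0 < (a - Real.log 2) / 2 by linarith)] with T hT
      refine lt_of_le_of_lt hT ?_
      rw [Fintype.card_bool]
      push_cast
      linarith
  · push Not at hδ2
    refine ⟨0, ?_⟩
    apply tendsto_const_nhds.congr'
    filter_upwards [eventually_gt_atTop 0] with T hT
    have hno : ∀ S : Finset (Sp P), (∀ x ∈ S, ∀ y ∈ S, x ≠ y →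
        ∃ t < T, δ ≤ dist ((F P)^[t] x) ((F P)^[t] y)) → S.card ≤ 1 := by
      intro S hS
      rw [Finset.card_le_one]
      intro x hx y hy
      by_contra hne
      obtain ⟨t, -, h⟩ := hS x hx y hy hne
      linarith [dist_le_two P ((F P)^[t] x) ((F P)^[t] y)]
    have h1 : sep (F P) δ T ≤ 1 := sep_le hT hno
    have h2 : 1 ≤ sep (F P) δ T := by
      have := le_sep hT hno {mk (xs P.u) (xs_mem P.u)} (by
        intro x hx y hy hne
        rw [Finset.mem_singleton] at hx hy
        exact absurd (hx.trans hy.symm) hne)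
      simpa using this
    have h3 : sep (F P) δ T = 1 := le_antisymm h1 h2
    rw [h3]
    simp

end Q2

/-! ### The system for Q1: the 3-subsets of a 12-set -/

/-- the 3-subsets of a 12-set -/
abbrev Tri : Type := {s : Finset (Fin 12) // s.card = 3}

/-- size of the intersection -/
def ii (u v : Tri) : ℕ := (u.1 ∩ v.1).card

lemma ii_symm (u v : Tri) : ii u v = ii v u := by unfold ii; rw [Finset.inter_comm]

lemma ii_self (u : Tri) : ii u u = 3 := by unfold ii; rw [Finset.inter_self]; exact u.2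

lemma ii_le (u v : Tri) : ii u v ≤ 3 := by
  unfold ii
  exact (Finset.card_le_card Finset.inter_subset_left).trans u.2.le

lemma ii_eq_three {u v : Tri} (h : ii u v = 3) : u = v := by
  unfold ii at h
  have h1 : u.1 ∩ v.1 = u.1 := Finset.eq_of_subset_of_card_le Finset.inter_subset_left
    (by rw [h, u.2])
  have h2 : u.1 ∩ v.1 = v.1 := Finset.eq_of_subset_of_card_le Finset.inter_subset_right
    (by rw [h, v.2])
  exact Subtype.ext (h1.symm.trans h2)

lemma card_Tri : Fintype.card Tri = 220 := by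
  rw [Fintype.card_finset_len, Fintype.card_fin]
  decide

instance : Nonempty Tri := by
  rw [← Fintype.card_pos_iff, card_Tri]
  norm_num

lemma card_ATri : Fintype.card (A Tri) = 443 := by
  rw [Fintype.card_option, Fintype.card_prod, Fintype.card_option, card_Tri, Fintype.card_bool]

/-- the closeness relations -/
def rT (b : Bool) (v v' : Tri) : Prop := if b = true then ii v v' ≠ 1 else ii v v' = 1

lemma rT_symm (b : Bool) (v v' : Tri) (h : rT b v v') : rT b v' v := by
  unfold rT at *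
  rw [ii_symm]; exact h

lemma ind_mul {K : Type} [Field K] (u v : Tri) :
    ∑ i : Fin 12, (if i ∈ u.1 then (1 : K) else 0) * (if i ∈ v.1 then (1 : K) else 0) = ii u v := by
  unfold ii
  rw [Finset.card_eq_sum_ones, Nat.cast_sum, ← Finset.sum_filter_add_sum_filter_not Finset.univ
    (fun i => i ∈ u.1 ∩ v.1)]
  rw [Finset.sum_eq_zero (s := Finset.filter (fun i => ¬ i ∈ u.1 ∩ v.1) Finset.univ), add_zero]
  · have : Finset.filter (fun i => i ∈ u.1 ∩ v.1) Finset.univ = u.1 ∩ v.1 := by
      ext i; simp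
    rw [this]
    apply Finset.sum_congr rfl
    intro i hi
    rw [Finset.mem_inter] at hi
    rw [if_pos hi.1, if_pos hi.2]
    simp
  · intro i hi
    rw [Finset.mem_filter, Finset.mem_inter] at hi
    by_cases h1 : i ∈ u.1
    · rw [if_neg (fun h2 => hi.2 ⟨h1, h2⟩), mul_zero]
    · rw [if_neg h1, zero_mul]

/-- the rank bound (Haemers) -/
lemma rank_bound {K ι : Type} [Field K] [Fintype ι] [DecidableEq ι] {P : Par Tri}
    (φ ψ : A Tri → ι → K) (S : Set (A Tri)) (hdiag : ∀ a ∈ S, ∑ i, φ a i * ψ a i ≠ 0)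
    (hfar : ∀ a ∈ S, ∀ b ∈ S, far P a b → ∑ i, φ a i * ψ b i = 0) (T : ℕ)
    (E : Finset (ℤ → A Tri)) (hE : ∀ x ∈ E, ∀ y ∈ E, x ≠ y → ∃ t : ℕ, t < T ∧ far P (x t) (y t))
    (hS : ∀ x ∈ E, ∀ t : ℕ, t < T → x t ∈ S) : E.card ≤ Fintype.card ι ^ T := by
  let Φ : E → ((Fin T → ι) → K) := fun x j => ∏ t : Fin T, φ (x.1 (t : ℕ)) (j t)
  have hpair : ∀ x y : E, ∑ j : Fin T → ι, Φ x j * ∏ t : Fin T, ψ (y.1 (t : ℕ)) (j t) =
      ∏ t : Fin T, ∑ i, φ (x.1 (t : ℕ)) i * ψ (y.1 (t : ℕ)) i := by
    intro x y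
    rw [Finset.prod_univ_sum, Fintype.piFinset_univ]
    apply Finset.sum_congr rfl
    intro j _
    simp only [Φ]
    rw [Finset.prod_mul_distrib]
  have hlin : LinearIndependent K Φ := by
    rw [Fintype.linearIndependent_iff]
    intro c hc y
    have h1 : ∑ x : E, c x * ∏ t : Fin T, ∑ i, φ (x.1 (t : ℕ)) i * ψ (y.1 (t : ℕ)) i = 0 := by
      have h2 : ∀ j, ∑ x : E, c x * Φ x j = 0 := by
        intro j
        have := congrFun hc j
        simpa using this
      calc ∑ x : E, c x * ∏ t : Fin T, ∑ i, φ (x.1 (t : ℕ)) i * ψ (y.1 (t : ℕ)) i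
          = ∑ x : E, ∑ j : Fin T → ι, c x * (Φ x j * ∏ t : Fin T, ψ (y.1 (t : ℕ)) (j t)) := by
            apply Finset.sum_congr rfl
            intro x _
            rw [← hpair, Finset.mul_sum]
        _ = ∑ j : Fin T → ι, (∑ x : E, c x * Φ x j) * ∏ t : Fin T, ψ (y.1 (t : ℕ)) (j t) := by
            rw [Finset.sum_comm]
            apply Finset.sum_congr rfl
            intro j _
            rw [Finset.sum_mul]
            apply Finset.sum_congr rfl
            intro x _
            ring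
        _ = 0 := by simp only [h2, zero_mul, Finset.sum_const_zero]
    rw [Finset.sum_eq_single y] at h1
    · rcases mul_eq_zero.1 h1 with h | h
      · exact h
      · exfalso
        rw [Finset.prod_eq_zero_iff] at h
        obtain ⟨t, -, ht⟩ := h
        exact hdiag _ (hS y.1 y.2 t t.2) ht
    · intro x _ hxy
      obtain ⟨t, ht, hf⟩ := hE x.1 x.2 y.1 y.2 (fun h => hxy (Subtype.ext h))
      rw [Finset.prod_eq_zero (Finset.mem_univ (⟨t, ht⟩ : Fin T)), mul_zero]
      exact hfar _ (hS x.1 x.2 t ht) _ (hS y.1 y.2 t ht) hf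
    · intro h; exact absurd (Finset.mem_univ y) h
  have := hlin.fintype_card_le_finrank
  rw [Fintype.card_coe] at this
  refine this.trans (le_of_eq ?_)
  rw [Module.finrank_fintype_fun_eq_card, Fintype.card_fun, Fintype.card_fin]

lemma z3 : ((3 : ℕ) : ZMod 2) = 1 := by decide

lemma z2 : ((2 : ℕ) : ZMod 2) = 0 := by decide

/-- the vectors of the first kind -/
def φ₁ : A Tri → Option (Fin 12) → ZMod 2
  | none, none => 1
  | none, some _ => 0
  | some _, none => 0
  | some (_, none), some _ => 0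
  | some (_, some u), some i => if i ∈ u.1 then 1 else 0

/-- the vectors of the second kind -/
def φ₂ (c : ℚ) : A Tri → Option (Option (Fin 12)) → ℚ
  | none, none => 1
  | none, some _ => 0
  | some _, none => 0
  | some (_, none), some _ => 0
  | some (_, some _), some none => c
  | some (_, some u), some (some i) => if i ∈ u.1 then 1 else 0

/-- the neutral letter and the letters of one kind -/
def SL (b : Bool) : Set (A Tri) := {a | a = none ∨ ∃ u : Tri, a = some (b, some u)}

lemma SL_of_ty {b : Bool} {a : A Tri} (h : ty a = some (b, true)) : a ∈ SL b := by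
  rcases a with _ | ⟨c, _ | v⟩
  · exact absurd h (by simp [ty])
  · exact absurd h (by simp [ty])
  · simp only [ty, Option.some.injEq, Prod.mk.injEq, and_true] at h
    exact Or.inr ⟨v, by rw [h]⟩

section Q1

variable {P : Par Tri}

lemma bound₁ (hr : P.r = rT) (T : ℕ) (E : Finset (ℤ → A Tri))
    (hE : ∀ x ∈ E, ∀ y ∈ E, x ≠ y → ∃ t : ℕ, t < T ∧ far P (x t) (y t))
    (hS : ∀ x ∈ E, ∀ t : ℕ, t < T → x t ∈ SL false) : E.card ≤ 13 ^ T := by
  have h13 : Fintype.card (Option (Fin 12)) = 13 := by simp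
  rw [← h13]
  haveI : Fact (Nat.Prime 2) := ⟨Nat.prime_two⟩
  have hJ : ∀ i : Fin 12, φ₁ none (some i) = 0 := fun i => rfl
  have hJ2 : φ₁ none none = 1 := rfl
  have h1 : ∀ (u : Tri) (i : Fin 12), φ₁ (some (false, some u)) (some i) =
    if i ∈ u.1 then 1 else 0 := fun u i => rfl
  have h2 : ∀ u : Tri, φ₁ (some (false, some u)) none = 0 := fun u => rfl
  refine rank_bound (K := ZMod 2) φ₁ φ₁ (SL false) ?_ ?_ T E hE hS
  · intro a ha
    rw [Fintype.sum_option]
    rcases ha with rfl | ⟨u, rfl⟩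
    · simp [hJ, hJ2]
    · simp only [h1, h2]
      rw [ind_mul, ii_self]
      have h3 : ((3 : ℕ) : ZMod 2) = 1 := z3
      rw [h3]
      simp
  · intro a ha b hb hf
    rw [Fintype.sum_option]
    rcases ha with rfl | ⟨u, rfl⟩
    · rcases hb with rfl | ⟨v, rfl⟩
      · exact absurd rfl hf.1
      · simp [hJ, h2]
    · rcases hb with rfl | ⟨v, rfl⟩
      · simp [hJ, h2]
      · simp only [h1, h2]
        rw [ind_mul]
        have h3 : ii u v ≠ 1 := by
          intro h
          apply hf.2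
          refine ⟨rfl, ?_⟩
          rw [hr]; unfold rT
          rw [if_neg (by decide)]; exact h
        have h4 : ii u v ≠ 3 := fun h => hf.1 (by rw [ii_eq_three h])
        have h5 := ii_le u v
        interval_cases ii u v
        · simp
        · exact absurd rfl h3
        · have h6 : ((2 : ℕ) : ZMod 2) = 0 := z2
          rw [h6]
          simp
        · exact absurd rfl h4

lemma bound₂ (hr : P.r = rT) (T : ℕ) (E : Finset (ℤ → A Tri))
    (hE : ∀ x ∈ E, ∀ y ∈ E, x ≠ y → ∃ t : ℕ, t < T ∧ far P (x t) (y t))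
    (hS : ∀ x ∈ E, ∀ t : ℕ, t < T → x t ∈ SL true) : E.card ≤ 14 ^ T := by
  have h14 : Fintype.card (Option (Option (Fin 12))) = 14 := by simp
  rw [← h14]
  have hJ : ∀ c i, φ₂ c none (some i) = 0 := fun c i => rfl
  have hJ2 : ∀ c, φ₂ c none none = 1 := fun c => rfl
  have h1 : ∀ c (u : Tri) (i : Fin 12), φ₂ c (some (true, some u)) (some (some i)) =
    if i ∈ u.1 then 1 else 0 := fun c u i => rfl
  have h2 : ∀ c (u : Tri), φ₂ c (some (true, some u)) (some none) = c := fun c u => rfl
  have h3 : ∀ c (u : Tri), φ₂ c (some (true, some u)) none = 0 := fun c u => rfl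
  refine rank_bound (K := ℚ) (φ₂ 1) (φ₂ (-1)) (SL true) ?_ ?_ T E hE hS
  · intro a ha
    rw [Fintype.sum_option]
    rcases ha with rfl | ⟨u, rfl⟩
    · simp [hJ, hJ2]
    · rw [Fintype.sum_option]
      simp only [h1, h2, h3]
      rw [ind_mul, ii_self]
      norm_num
  · intro a ha b hb hf
    rw [Fintype.sum_option]
    rcases ha with rfl | ⟨u, rfl⟩
    · rcases hb with rfl | ⟨v, rfl⟩
      · exact absurd rfl hf.1
      · simp [hJ, h3]
    · rcases hb with rfl | ⟨v, rfl⟩
      · simp [hJ, h3]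
      · rw [Fintype.sum_option]
        simp only [h1, h2, h3]
        rw [ind_mul]
        have h4 : ii u v = 1 := by
          by_contra h
          apply hf.2
          refine ⟨rfl, ?_⟩
          rw [hr]; unfold rT
          rw [if_pos rfl]; exact h
        rw [h4]
        norm_num

/-- few separated points at the scales `mm (k + 1)` -/
lemma sep_upper1 (hP : Std P) (hr : P.r = rT) (k : ℕ) (S : Finset (Sp P))
    (hS : ∀ x ∈ S, ∀ y ∈ S, x ≠ y → ∃ t < mm (k + 1), 2 ≤ dist ((F P)^[t] x) ((F P)^[t] y)) :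
    S.card ≤ ((w P.u 0).len + 12) * (mm (k + 1) + 1) ^ 4 * 14 ^ mm (k + 1) := by
  classical
  set T := mm (k + 1) with hT
  have hinj : Function.Injective (Sp.v (P := P)) := fun x y h => Sp.ext h
  rw [← Finset.card_image_of_injective S hinj]
  set E := S.image Sp.v with hE
  have hfar : ∀ x ∈ E, ∀ y ∈ E, x ≠ y → ∃ t : ℕ, t < T ∧ far P (x t) (y t) := by
    intro x hx y hy hne
    obtain ⟨x', hx', rfl⟩ := Finset.mem_image.1 hx
    obtain ⟨y', hy', rfl⟩ := Finset.mem_image.1 hy
    obtain ⟨t, ht, h⟩ := hS x' hx' y' hy' fun h => hne (by rw [h])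
    exact ⟨t, ht, (two_le_iter _ _ _).1 h⟩
  have hX : ∀ x ∈ E, x ∈ X P.u := by
    intro x hx
    obtain ⟨x', -, rfl⟩ := Finset.mem_image.1 hx
    exact x'.mem
  have hDW : DW T E := fun x hx y hy hne => by
    obtain ⟨t, ht, h⟩ := hfar x hx y hy hne
    exact ⟨t, ht, h.1⟩
  obtain ⟨k', hk', hlen⟩ := exists_level P.u T
  have hcov : E ⊆ (E.filter fun x => IsL T false x) ∪ (E.filter fun x => IsL T true x) ∪
      (E.filter fun x => IsC T false x) ∪ (E.filter fun x => IsC T true x) ∪
      (E.filter fun x => IsM T x) ∪ (E.filter fun x => IsE P.u T k' x) := by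
    intro x hx
    simp only [Finset.mem_union, Finset.mem_filter]
    rcases classify hP.1 hk' (hX x hx) with ⟨_ | _, h⟩ | ⟨_ | _, h⟩ | h | h <;> tauto
  have hSL : ∀ (b : Bool) (x : ℤ → A Tri), IsL T b x → ∀ t : ℕ, t < T → x t ∈ SL b := by
    rintro b x ⟨a₁, a₂, -, -, e⟩ t ht
    by_cases hc : a₁ ≤ t ∧ t < a₂
    · exact SL_of_ty ((e t ht).1 hc.1 hc.2)
    · exact Or.inl ((e t ht).2 hc)
  have h1 : (E.filter fun x => IsL T false x).card ≤ 13 ^ T := bound₁ hr T _
    (fun x hx y hy => hfar x (Finset.mem_filter.1 hx).1 y (Finset.mem_filter.1 hy).1)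
    fun x hx => hSL false x (Finset.mem_filter.1 hx).2
  have h2 : (E.filter fun x => IsL T true x).card ≤ 14 ^ T := bound₂ hr T _
    (fun x hx y hy => hfar x (Finset.mem_filter.1 hx).1 y (Finset.mem_filter.1 hy).1)
    fun x hx => hSL true x (Finset.mem_filter.1 hx).2
  have h3 := card_C (hDW.mono (Finset.filter_subset (fun x => IsC T false x) E))
    fun x hx => (Finset.mem_filter.1 hx).2
  have h4 := card_C (hDW.mono (Finset.filter_subset (fun x => IsC T true x) E))
    fun x hx => (Finset.mem_filter.1 hx).2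
  have h5 := card_M' (k := k) (hDW.mono (Finset.filter_subset (fun x => IsM T x) E))
    fun x hx => (Finset.mem_filter.1 hx).2
  have h6 := card_E (hDW.mono (Finset.filter_subset (fun x => IsE P.u T k' x) E))
    fun x hx => (Finset.mem_filter.1 hx).2
  have h7 := Finset.card_le_card hcov
  have h8 := Finset.card_union_le ((E.filter fun x => IsL T false x) ∪
    (E.filter fun x => IsL T true x) ∪ (E.filter fun x => IsC T false x) ∪
    (E.filter fun x => IsC T true x) ∪ (E.filter fun x => IsM T x))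
    (E.filter fun x => IsE P.u T k' x)
  have h9 := Finset.card_union_le ((E.filter fun x => IsL T false x) ∪
    (E.filter fun x => IsL T true x) ∪ (E.filter fun x => IsC T false x) ∪
    (E.filter fun x => IsC T true x)) (E.filter fun x => IsM T x)
  have h10 := Finset.card_union_le ((E.filter fun x => IsL T false x) ∪
    (E.filter fun x => IsL T true x) ∪ (E.filter fun x => IsC T false x))
    (E.filter fun x => IsC T true x)
  have h11 := Finset.card_union_le ((E.filter fun x => IsL T false x) ∪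
    (E.filter fun x => IsL T true x)) (E.filter fun x => IsC T false x)
  have h12 := Finset.card_union_le (E.filter fun x => IsL T false x)
    (E.filter fun x => IsL T true x)
  have b4 : Fintype.card (A Tri) ^ (2 * nk k) ≤ 14 ^ T := by
    rw [card_ATri]
    calc (443 : ℕ) ^ (2 * nk k) ≤ (14 ^ 3) ^ (2 * nk k) := Nat.pow_le_pow_left (by norm_num) _
      _ = 14 ^ (3 * (2 * nk k)) := by rw [← pow_mul]
      _ ≤ 14 ^ T := by
        apply Nat.pow_le_pow_right (by norm_num)
        rw [hT, mm_nk]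
        omega
  have b5 : (13 : ℕ) ^ T ≤ 14 ^ T := Nat.pow_le_pow_left (by norm_num) _
  rw [← hT] at h5
  set R := 14 ^ T with hR
  have hR1 : 1 ≤ R := Nat.one_le_pow _ _ (by norm_num)
  set Q := (T + 1) ^ 2 with hQ
  have hQ1 : T + 1 ≤ Q := by rw [hQ, pow_two]; exact Nat.le_mul_self _
  have hQ2 : (T + 1) ^ 4 = Q * Q := by rw [hQ]; ring
  have hQ3 : Q ≤ Q * Q := Nat.le_mul_self _
  have h5' : (E.filter fun x => IsM T x).card ≤ Q * Q * R := by
    refine h5.trans ?_
    rw [hQ2]
    exact Nat.mul_le_mul_left _ b4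
  rw [hQ2]
  have f1 : Q * Q ≤ Q * Q * R := Nat.le_mul_of_pos_right _ (by omega)
  have f2 : R ≤ Q * Q * R := Nat.le_mul_of_pos_left _ (by
    have : 1 ≤ Q := by omega
    nlinarith)
  have f3 : (w P.u 0).len * (T + 1) ≤ (w P.u 0).len * (Q * Q * R) :=
    Nat.mul_le_mul_left _ (hQ1.trans (hQ3.trans f1))
  have f4 : (w P.u 0).len ≤ (w P.u 0).len * (T + 1) := Nat.le_mul_of_pos_right _ (by omega)
  have f5 : ((w P.u 0).len + 12) * (Q * Q) * R =
      (w P.u 0).len * (Q * Q * R) + 12 * (Q * Q * R) := by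
    ring
  rw [f5]
  have f6 : 4 * T + 1 ≤ 4 * Q := by omega
  omega

lemma sep_freq_low1 (hP : Std P) (hr : P.r = rT) {η : ℝ} (hη : 0 < η) : ∃ᶠ T : ℕ in atTop,
    Real.log (sep (F P) 2 T) / T ≤ Real.log 14 + η := by
  refine mm_tendsto.frequently (Eventually.frequently ?_)
  filter_upwards [mm_tendsto.eventually (log_small hη ((w P.u 0).len + 12) 1)] with k hk
  have hT : 0 < mm (k + 1) := mm_pos _
  have h1 := sep_le hT (sep_upper1 hP hr k)
  have hlog : 0 ≤ Real.log 14 := Real.log_nonneg (by norm_num)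
  refine rate_le hT (by omega) (by positivity) h1 one_pos ?_ hk (by positivity)
  push_cast
  rw [Real.log_pow, mul_comm]

lemma sep_freq_high1 (hP : Std P) (hr : P.r = rT) : ∃ᶠ T : ℕ in atTop,
    64 / 129 * Real.log 220 ≤ Real.log (sep (F P) 2 T) / T := by
  classical
  refine wk_tendsto.frequently (Frequently.of_forall fun k => ?_)
  have hT := wk_pos k
  have hfar : ∀ g g' : Fin (nk k) → Tri, g ≠ g' →
      ∃ t < wk k, 2 ≤ dist ((F P)^[t] (tgt hP k g g)) ((F P)^[t] (tgt hP k g' g')) := by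
    intro g g' h
    obtain ⟨i, hi⟩ := Function.ne_iff.1 h
    have hw : wk k = 2 * nk k + mm k := rfl
    have hi2 := i.2
    by_cases h1 : ii (g i) (g' i) = 1
    · refine ⟨nk k + mm k + i, by omega, (two_le_iter _ _ _).2 ?_⟩
      rw [tgt_H, tgt_H]
      refine ⟨fun he => hi (by simpa using he), fun hc => ?_⟩
      have := hc.2
      rw [hr] at this
      unfold rT at this
      rw [if_pos rfl] at this
      exact this h1
    · refine ⟨i, by omega, (two_le_iter _ _ _).2 ?_⟩
      rw [tgt_G, tgt_G]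
      refine ⟨fun he => hi (by simpa using he), fun hc => ?_⟩
      have := hc.2
      rw [hr] at this
      unfold rT at this
      rw [if_neg (by decide)] at this
      exact h1 this
  have hinj : Function.Injective fun g : Fin (nk k) → Tri => tgt hP k g g := by
    intro v v' h
    by_contra hne
    obtain ⟨t, -, ht⟩ := hfar v v' hne
    simp only at h
    rw [h, dist_self] at ht
    norm_num at ht
  have hcard : (Finset.univ.image fun g : Fin (nk k) → Tri => tgt hP k g g).card =
      220 ^ nk k := by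
    rw [Finset.card_image_of_injective _ hinj, Finset.card_univ, Fintype.card_fun,
      card_Tri, Fintype.card_fin]
  obtain ⟨j, hj⟩ := sep_bound hP (show (0 : ℝ) < 2 by norm_num)
  have h1 : 220 ^ nk k ≤ sep (F P) 2 (wk k) := by
    rw [← hcard]
    refine le_sep hT (hj _ hT) _ ?_
    intro x hx y hy hne
    obtain ⟨v, -, rfl⟩ := Finset.mem_image.1 hx
    obtain ⟨v', -, rfl⟩ := Finset.mem_image.1 hy
    exact hfar v v' fun h => hne (by rw [h])
  have h2 : ((220 : ℝ)) ^ nk k ≤ sep (F P) 2 (wk k) := by exact_mod_cast h1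
  have h3 := Real.log_le_log (by positivity) h2
  rw [Real.log_pow] at h3
  have hT' : (0 : ℝ) < wk k := by exact_mod_cast hT
  rw [le_div_iff₀ hT']
  have h4 : (64 : ℝ) * wk k = 129 * nk k := by exact_mod_cast wk_nk k
  have h5 : (wk k : ℝ) = 129 / 64 * nk k := by linarith
  rw [h5]
  linarith

lemma s_lt (hP : Std P) (hr : P.r = rT) : sLow (F P) 2 < sUp (F P) 2 := by
  have hnum : Real.log 14 < 64 / 129 * Real.log 220 := by
    have h1 : (129 : ℝ) * Real.log 14 < 64 * Real.log 220 := by
      have h2 : Real.log ((14 : ℝ) ^ 129) < Real.log ((220 : ℝ) ^ 64) :=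
        Real.log_lt_log (by positivity) (by norm_num)
      rw [Real.log_pow, Real.log_pow] at h2
      exact_mod_cast h2
    linarith
  set a := Real.log 14 with ha
  set b := 64 / 129 * Real.log 220 with hb
  have h1 : sLow (F P) 2 ≤ ((a + (b - a) / 2 : ℝ) : EReal) := by
    apply liminf_le_of_frequently_le'
    exact (sep_freq_low1 hP hr (show 0 < (b - a) / 2 by linarith)).mono fun T hT => by
      exact_mod_cast hT
  have h2 : ((b : ℝ) : EReal) ≤ sUp (F P) 2 := by
    apply le_limsup_of_frequently_le'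
    exact (sep_freq_high1 hP hr).mono fun T hT => by exact_mod_cast hT
  refine lt_of_le_of_lt h1 (lt_of_lt_of_le ?_ h2)
  exact_mod_cast (show a + (b - a) / 2 < b by linarith)

/-- at most 136 letters are near a given one for the first relation -/
lemma near136 (v : Tri) : Set.ncard {v' : Tri | v = v' ∨ rT false v v'} ≤ 136 := by
  classical
  have h1 : (Finset.univ.filter fun v' : Tri => Disjoint v.1 v'.1).card = 84 := by
    have e : (Finset.univ.filter fun v' : Tri => Disjoint v.1 v'.1).card =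
        (Finset.powersetCard 3 (v.1ᶜ)).card := by
      refine Finset.card_bij (fun v' _ => v'.1) ?_ ?_ ?_
      · intro v' hv'
        rw [Finset.mem_powersetCard]
        exact ⟨Finset.subset_compl_iff_disjoint_right.2
          (Finset.mem_filter.1 hv').2.symm, v'.2⟩
      · intro a _ b _ h; exact Subtype.ext h
      · intro s hs
        rw [Finset.mem_powersetCard] at hs
        exact ⟨⟨s, hs.2⟩, Finset.mem_filter.2 ⟨Finset.mem_univ _,
          (Finset.subset_compl_iff_disjoint_right.1 hs.1).symm⟩, rfl⟩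
    rw [e, Finset.card_powersetCard, Finset.card_compl, v.2, Fintype.card_fin]
    decide
  have h2 : {v' : Tri | v = v' ∨ rT false v v'} ⊆
      ((Finset.univ.filter fun v' : Tri => ¬ Disjoint v.1 v'.1 : Finset Tri) : Set Tri) := by
    intro v' hv'
    rw [Finset.mem_coe, Finset.mem_filter]
    refine ⟨Finset.mem_univ _, fun hd => ?_⟩
    have h0 : ii v v' = 0 := by
      unfold ii
      rw [Finset.card_eq_zero, ← Finset.disjoint_iff_inter_eq_empty]
      exact hd
    rcases hv' with rfl | h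
    · rw [ii_self] at h0; norm_num at h0
    · unfold rT at h
      rw [if_neg (by decide), h0] at h
      norm_num at h
  refine (Set.ncard_le_ncard h2 (Finset.finite_toSet _)).trans ?_
  rw [Set.ncard_coe_finset]
  have h3 := Finset.card_filter_add_card_filter_not (s := (Finset.univ : Finset Tri))
    (fun v' : Tri => Disjoint v.1 v'.1)
  rw [h1, Finset.card_univ, card_Tri] at h3
  omega

lemma near220 (v : Tri) : Set.ncard {v' : Tri | v = v' ∨ rT true v v'} ≤ 220 := by
  rw [← card_Tri, ← Nat.card_eq_fintype_card, ← Set.ncard_univ]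
  exact Set.ncard_le_ncard (Set.subset_univ _) (Set.toFinite _)

end Q1

/-- **Q1.** There is a topologically transitive homeomorphism of a compact metric space with finite
entropy for which both the growth rates of `span` and of `sep` oscillate at the same `ε`.
**Q2.** There is one for which the growth rate of `span` oscillates at some `ε` while the growth
rate of `sep` converges for every `δ`. -/
theorem result :
    (∃ (X : Type) (_ : MetricSpace X) (_ : CompactSpace X) (F : X ≃ₜ X),
      Transitive F ∧ entropy F < ⊤ ∧ ∃ ε > 0, pLow F ε < pUp F ε ∧ sLow F ε < sUp F ε) ∧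
    (∃ (X : Type) (_ : MetricSpace X) (_ : CompactSpace X) (F : X ≃ₜ X),
      Transitive F ∧ entropy F < ⊤ ∧ (∃ ε > 0, pLow F ε < pUp F ε) ∧
      ∀ δ > 0, sLow F δ = sUp F δ) := by
  constructor
  · obtain ⟨u, hu1, hu2⟩ := exists_enum (V := Tri)
    let P : Par Tri := ⟨rT, rT_symm, u⟩
    have hP : Std P := ⟨hu1, hu2⟩
    refine ⟨Sp P, inferInstance, inferInstance, F P, transitive_F, entropy_lt hP, 2, by norm_num,
      ?_, s_lt hP rfl⟩
    refine p_lt hP (d₀ := 136) (d₁ := 220) (by norm_num) near136 near220 ?_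
    rw [card_ATri, card_Tri]
    have h1 : (129 : ℝ) * Real.log 443 + 2048 * Real.log 29920 < 4096 * Real.log 220 := by
      have h2 : (129 : ℝ) * Real.log 443 < 2048 * (2 * Real.log 220 - Real.log 29920) := by
        have h3 : 2 * Real.log 220 - Real.log 29920 = Real.log (55 / 34) := by
          rw [show (2 : ℝ) * Real.log 220 = Real.log (220 ^ 2) by rw [Real.log_pow]; norm_num,
            ← Real.log_div (by norm_num) (by norm_num)]
          norm_num
        rw [h3]
        -- `443 < (55/34)^15`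
        have h4 : Real.log 443 < Real.log ((55 / 34 : ℝ) ^ 15) :=
          Real.log_lt_log (by norm_num) (by norm_num)
        rw [Real.log_pow] at h4
        have h5 : 0 < Real.log (55 / 34) := Real.log_pos (by norm_num)
        push_cast at h4
        linarith
      linarith
    have h6 : ((136 * 220 : ℕ) : ℝ) = 29920 := by norm_num
    rw [h6]
    push_cast
    linarith
  · obtain ⟨u, hu1, hu2⟩ := exists_enum (V := Bool)
    let P : Par Bool := ⟨fun _ _ _ => False, fun _ _ _ h => h, u⟩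
    have hP : Std P := ⟨hu1, hu2⟩
    have hr : ∀ b v v', ¬ P.r b v v' := fun _ _ _ h => h
    refine ⟨Sp P, inferInstance, inferInstance, F P, transitive_F, entropy_lt hP,
      ⟨2, by norm_num, ?_⟩, fun δ hδ => ?_⟩
    · have hd : ∀ (b v : Bool), Set.ncard {v' | v = v' ∨ P.r b v v'} ≤ 1 := by
        intro b v
        have : {v' | v = v' ∨ P.r b v v'} = {v} := by
          ext v'
          simp only [mem_setOf_eq, mem_singleton_iff]
          constructor
          · rintro (h | h)
            · exact h.symm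
            · exact absurd h (hr _ _ _)
          · intro h; exact Or.inl h.symm
        rw [this, Set.ncard_singleton]
      refine p_lt hP (d₀ := 1) (d₁ := 1) (by norm_num) (hd false) (hd true) ?_
      have h7 : Fintype.card (A Bool) = 7 := by decide
      rw [h7, Fintype.card_bool]
      have h1 : Real.log 7 < Real.log ((2 : ℝ) ^ 3) := Real.log_lt_log (by norm_num) (by norm_num)
      rw [Real.log_pow] at h1
      have h2 : 0 < Real.log 2 := Real.log_pos (by norm_num)
      push_cast at h1 ⊢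
      rw [Real.log_one]
      linarith
    · obtain ⟨c, hc⟩ := sep_tendsto2 hP hr hδ
      have h1 : Tendsto (fun T : ℕ => ((Real.log (sep (F P) δ T) / T : ℝ) : EReal)) atTop
          (𝓝 (c : EReal)) := (continuous_coe_real_ereal.tendsto c).comp hc
      unfold sLow sUp
      rw [h1.liminf_eq, h1.limsup_eq]

end Pool.Agent.Results.MP_307271_an.Oscillate
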